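import Pool.Agent.Run7.h462.KT.Clk
import Pool.Agent.Run7.h462.PA.Stm

/-!
# Project PA (helper462), piece CLG: the singular series relative to `G` does not depend on the cut
-/

set_option autoImplicit false

namespace Run7.h760.PA

open Finset Filter Topology
open Pool.Agent.H373R2.T7 (pz Vz mem_pz Vz_pos)
open Pool.Agent.TH204.WR (rho hh xp tail_all hh_close hh_mul hh_nonneg rho_le rho_le_deg')
open Run7.h462.KT
open Run7.h462.PA
open scoped Polynomial

variable {k : ℕ}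

/-- `G` and `F + t` have a common root modulo `p` -/
def cr (G F : ℤ[X]) (t : ℤ) (p : ℕ) : Prop := ∃ x ∈ range p, (p : ℤ) ∣ G.eval (x : ℤ) + 0 ∧ (p : ℤ) ∣ F.eval (x : ℤ) + t

lemma rG_eq_card (G F : ℤ[X]) (a : Fin k → ℕ) {p : ℕ} (hp : p.Prime) :
    rG G F a p = #((range p).filter (fun x : ℕ => (p : ℤ) ∣ G.eval (x : ℤ) + 0 ∨ ∃ i, (p : ℤ) ∣ F.eval (x : ℤ) + (a i : ℤ))) := by
  unfold rG rho
  congr 1
  apply filter_congr
  intro x _
  have hp' : Prime (p : ℤ) := Nat.prime_iff_prime_int.1 hp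
  rw [Polynomial.eval_mul, add_zero, hp'.dvd_mul, add_zero, ← dvd_Q F a hp x, add_zero]

lemma rG_le (G F : ℤ[X]) (a : Fin k → ℕ) (p : ℕ) : rG G F a p ≤ p := rho_le _ _ _

lemma rG_le_add (G F : ℤ[X]) (a : Fin k → ℕ) {p : ℕ} (hp : p.Prime) : rG G F a p ≤ rho G 0 p + rk F a p := by
  rw [rG_eq_card G F a hp, rk_eq_card F a hp, filter_or]
  exact card_union_le _ _

lemma rG_le_sum (G F : ℤ[X]) (a : Fin k → ℕ) {p : ℕ} (hp : p.Prime) :
    rG G F a p ≤ rho G 0 p + ∑ i, rho F (a i : ℤ) p :=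
  (rG_le_add G F a hp).trans (Nat.add_le_add_left (rk_le_sum F a hp) _)

lemma rk_le_rG (G F : ℤ[X]) (a : Fin k → ℕ) {p : ℕ} (hp : p.Prime) : rk F a p ≤ rG G F a p := by
  rw [rG_eq_card G F a hp, rk_eq_card F a hp]
  apply card_le_card
  intro x hx
  rw [mem_filter] at hx ⊢
  exact ⟨hx.1, Or.inr hx.2⟩

lemma rG_eq_sum (G F : ℤ[X]) (a : Fin k → ℕ) {p : ℕ} (hp : p.Prime) (hov : ¬ ov a p)
    (hcr : ∀ i, ¬ cr G F (a i : ℤ) p) : rG G F a p = rho G 0 p + ∑ i, rho F (a i : ℤ) p := by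
  rw [← rk_eq_sum F a hp hov, rG_eq_card G F a hp, rk_eq_card F a hp, filter_or, card_union_of_disjoint]
  · rfl
  · rw [disjoint_left]
    intro x hx hy
    rw [mem_filter] at hx hy
    obtain ⟨i, hi⟩ := hy.2
    exact hcr i ⟨x, hx.1, hx.2, hi⟩

/-- the local quotient -/
noncomputable def uG (G F : ℤ[X]) (a : Fin k → ℕ) (p : ℕ) : ℝ :=
  (1 - (rG G F a p : ℝ) / p) / ((1 - (rho G 0 p : ℝ) / p) * ∏ i, (1 - (rho F (a i : ℤ) p : ℝ) / p))

lemma rho_G_le (G : ℤ[X]) {p : ℕ} (hp : p.Prime) (hl : G.leadingCoeff.natAbs < p) (hG : G ≠ 0) :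
    rho G 0 p ≤ G.natDegree := by
  have hl0 : G.leadingCoeff ≠ 0 := Polynomial.leadingCoeff_ne_zero.2 hG
  rcases Nat.eq_zero_or_pos G.natDegree with h0 | h0
  · have h1 : G = Polynomial.C (G.coeff 0) := Polynomial.eq_C_of_natDegree_eq_zero h0
    have h2 : G.leadingCoeff = G.coeff 0 := by
      unfold Polynomial.leadingCoeff
      rw [h0]
    have h3 : rho G 0 p = 0 := by
      unfold rho
      rw [card_eq_zero, filter_eq_empty_iff]
      intro x _ hx
      rw [h1, Polynomial.eval_C, add_zero, ← h2] at hx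
      have h4 := Int.natAbs_dvd_natAbs.2 hx
      rw [Int.natAbs_natCast] at h4
      have h5 := Nat.le_of_dvd (Int.natAbs_pos.2 hl0) h4
      omega
    omega
  · exact rho_le_deg' G 0 p hp h0 hl hl0

open Classical in
lemma uG_close (G F : ℤ[X]) (a : Fin k → ℕ) {p : ℕ} (hp : p.Prime) (hd : 1 ≤ F.natDegree)
    (hl : F.leadingCoeff.natAbs < p) (hl0 : F.leadingCoeff ≠ 0) (hG : G ≠ 0) (hlG : G.leadingCoeff.natAbs < p)
    (hpk : 2 * (G.natDegree + k * F.natDegree) ≤ p) :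
    (∀ i, 1 - (rho F (a i : ℤ) p : ℝ) / p ≠ 0) ∧
    |uG G F a p - 1| ≤ ((G.natDegree + k * F.natDegree : ℕ) : ℝ) ^ 2 * (1 / (p : ℝ) ^ 2) +
      ((if ov a p then 2 * ((G.natDegree + k * F.natDegree : ℕ) : ℝ) / p else 0) +
      ∑ i, (if cr G F (a i : ℤ) p then 2 * ((G.natDegree + k * F.natDegree : ℕ) : ℝ) / p else 0)) := by
  have hp0 : (0 : ℝ) < p := by exact_mod_cast hp.pos
  obtain ⟨D, hD⟩ : ∃ D : ℝ, D = ((G.natDegree + k * F.natDegree : ℕ) : ℝ) := ⟨_, rfl⟩
  have hD0 : 0 ≤ D := by rw [hD]; exact Nat.cast_nonneg _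
  rw [← hD]
  have hDp : 2 * D ≤ p := by rw [hD]; exact_mod_cast hpk
  obtain ⟨x, hx⟩ : ∃ x : Option (Fin k) → ℝ, x = fun o : Option (Fin k) => (Option.elim o (rho G 0 p : ℝ) (fun i => (rho F (a i : ℤ) p : ℝ))) / p :=
    ⟨_, rfl⟩
  have hx0 : ∀ i ∈ (univ : Finset (Option (Fin k))), 0 ≤ x i := by
    intro i _
    rw [hx]
    rcases i with _ | i
    · simp only [Option.elim_none]; positivity
    · simp only [Option.elim_some]; positivity
  have hsum : ∑ i, x i = ((rho G 0 p : ℝ) + ∑ i, (rho F (a i : ℤ) p : ℝ)) / p := by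
    rw [hx, Fintype.sum_option]
    simp only [Option.elim_none, Option.elim_some]
    rw [add_div, sum_div]
  have hρ : (rho G 0 p : ℝ) + ∑ i, (rho F (a i : ℤ) p : ℝ) ≤ D := by
    rw [hD]
    have h1 : ∑ i : Fin k, rho F (a i : ℤ) p ≤ k * F.natDegree := by
      calc ∑ i : Fin k, rho F (a i : ℤ) p ≤ ∑ _i : Fin k, F.natDegree :=
            sum_le_sum fun i _ => rho_le_deg' F _ p hp hd hl hl0
        _ = _ := by simp
    have h2 : rho G 0 p + ∑ i : Fin k, rho F (a i : ℤ) p ≤ G.natDegree + k * F.natDegree :=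
      Nat.add_le_add (rho_G_le G hp hlG hG) h1
    exact_mod_cast h2
  have hs0 : 0 ≤ ∑ i, x i := sum_nonneg hx0
  have hsD : ∑ i, x i ≤ D / p := by
    rw [hsum]
    gcongr
  have hsh : ∑ i, x i ≤ 1 / 2 := by
    refine hsD.trans ?_
    rw [div_le_div_iff₀ hp0 (by norm_num)]
    linarith
  have hx1 : ∀ i ∈ (univ : Finset (Option (Fin k))), x i ≤ 1 := by
    intro i hi
    have := single_le_sum hx0 hi
    linarith
  have hx12 : ∀ i, x i ≤ 1 / 2 := by
    intro i
    have := single_le_sum hx0 (mem_univ i)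
    linarith
  have hne : ∀ i : Fin k, 1 - (rho F (a i : ℤ) p : ℝ) / p ≠ 0 := by
    intro i
    have h1 := hx12 (some i)
    rw [hx] at h1
    simp only [Option.elim_some] at h1
    linarith
  refine ⟨hne, ?_⟩
  have hq := prod_le_quot univ x hx0 hx1
  have hw := one_sub_sum_le univ x hx0 hx1
  obtain ⟨s, hs⟩ : ∃ s : ℝ, s = ∑ i, x i := ⟨_, rfl⟩
  rw [← hs] at hs0 hsD hsh hq hw
  obtain ⟨Pq, hPq⟩ : ∃ Pq : ℝ, Pq = ∏ i, (1 - x i) := ⟨_, rfl⟩
  rw [← hPq] at hq hw
  have hPq0 : 0 < Pq := by linarith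
  have hPq1 : Pq ≤ 1 := by nlinarith
  have huq : uG G F a p = (1 - (rG G F a p : ℝ) / p) / Pq := by
    unfold uG
    rw [hPq, hx, Fintype.prod_option]
    simp only [Option.elim_none, Option.elim_some]
  rw [huq]
  have hs2 : s ^ 2 ≤ D ^ 2 * (1 / (p : ℝ) ^ 2) := by
    calc s ^ 2 ≤ (D / p) ^ 2 := pow_le_pow_left₀ hs0 hsD 2
      _ = _ := by ring
  have hDpos : 0 ≤ 2 * D / p := by positivity
  have hnn : ∀ i : Fin k, 0 ≤ (if cr G F (a i : ℤ) p then 2 * D / p else 0) := by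
    intro i
    split_ifs
    · exact hDpos
    · exact le_rfl
  by_cases hbad : ov a p ∨ ∃ i, cr G F (a i : ℤ) p
  · have hb : 2 * D / p ≤ (if ov a p then 2 * D / p else 0) + ∑ i, (if cr G F (a i : ℤ) p then 2 * D / p else 0) := by
      rcases hbad with h | ⟨i, hi⟩
      · rw [if_pos h]
        have := sum_nonneg fun i (_ : i ∈ (univ : Finset (Fin k))) => hnn i
        linarith
      · have h1 : (if cr G F (a i : ℤ) p then 2 * D / p else 0) ≤ ∑ i, (if cr G F (a i : ℤ) p then 2 * D / p else 0) :=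
          single_le_sum (f := fun i => if cr G F (a i : ℤ) p then 2 * D / p else 0) (fun i _ => hnn i) (mem_univ i)
        rw [if_pos hi] at h1
        have h2 : 0 ≤ (if ov a p then 2 * D / p else 0) := by
          split_ifs
          · exact hDpos
          · exact le_rfl
        linarith
    have h1 : (rG G F a p : ℝ) / p ≤ s := by
      rw [hs, hsum]
      have : (rG G F a p : ℝ) ≤ (rho G 0 p : ℝ) + ∑ i, (rho F (a i : ℤ) p : ℝ) := by exact_mod_cast rG_le_sum G F a hp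
      gcongr
    have h2 : 0 ≤ (rG G F a p : ℝ) / p := by positivity
    have h3 : |(1 - (rG G F a p : ℝ) / p) / Pq - 1| ≤ 2 * s := by
      rw [abs_le]
      constructor
      · have h4 : 1 - 2 * s ≤ (1 - (rG G F a p : ℝ) / p) / Pq := by
          rw [le_div_iff₀ hPq0]
          have h5 : (1 - 2 * s) * Pq ≤ (1 - 2 * s) * 1 := mul_le_mul_of_nonneg_left hPq1 (by linarith)
          linarith
        linarith
      · have h4 : (1 - (rG G F a p : ℝ) / p) / Pq ≤ 1 + 2 * s := by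
          rw [div_le_iff₀ hPq0]
          have h5 : (1 + 2 * s) * (1 - s) ≤ (1 + 2 * s) * Pq := mul_le_mul_of_nonneg_left hw (by linarith)
          nlinarith
        linarith
    have h4 : 2 * s ≤ 2 * D / p := by
      rw [mul_div_assoc]
      linarith
    have h5 : 0 ≤ D ^ 2 * (1 / (p : ℝ) ^ 2) := by positivity
    linarith
  · push Not at hbad
    have h0 : (if ov a p then 2 * D / p else 0) + ∑ i, (if cr G F (a i : ℤ) p then 2 * D / p else 0) = 0 := by
      rw [if_neg hbad.1, zero_add]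
      exact sum_eq_zero fun i _ => if_neg (hbad.2 i)
    rw [h0, add_zero]
    have h1 : (rG G F a p : ℝ) / p = s := by
      rw [hs, hsum, rG_eq_sum G F a hp hbad.1 hbad.2]
      push_cast
      rfl
    rw [h1]
    refine le_trans ?_ hs2
    rw [abs_le]
    constructor
    · have h4 : 1 - s ^ 2 ≤ (1 - s) / Pq := by
        rw [le_div_iff₀ hPq0]
        have h5 : (1 - s) * (Pq * (1 + s)) ≤ (1 - s) * 1 := mul_le_mul_of_nonneg_left hq (by linarith)
        nlinarith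
      linarith
    · have h4 : (1 - s) / Pq ≤ 1 := by
        rw [div_le_one hPq0]
        exact hw
      have := sq_nonneg s
      linarith

lemma gG_eq_prod (G F : ℤ[X]) (a : Fin k → ℕ) (z : ℕ) :
    gG G F a z = ∏ p ∈ pz z, ((1 - (rG G F a p : ℝ) / p) / ((1 - (rho G 0 p : ℝ) / p) * (1 - 1 / (p : ℝ)) ^ k)) := by
  unfold gG VG Vz
  rw [prod_div_distrib, prod_mul_distrib, prod_pow]

lemma gG_nonneg (G F : ℤ[X]) (a : Fin k → ℕ) (z : ℕ) : 0 ≤ gG G F a z := by
  rw [gG_eq_prod]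
  apply prod_nonneg
  intro p hp
  have hp' := (mem_pz.1 hp).2
  have hp0 : (0 : ℝ) < p := by exact_mod_cast hp'.pos
  have hp1 : (1 : ℝ) ≤ p := by exact_mod_cast hp'.one_le
  have h1 : 0 ≤ 1 - (rG G F a p : ℝ) / p := by
    have : (rG G F a p : ℝ) ≤ p := by exact_mod_cast rG_le G F a p
    rw [sub_nonneg, div_le_one hp0]
    exact this
  have h2 : 0 ≤ 1 - (rho G 0 p : ℝ) / p := by
    have : (rho G 0 p : ℝ) ≤ p := by exact_mod_cast rho_le G 0 p
    rw [sub_nonneg, div_le_one hp0]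
    exact this
  have h3 : 0 ≤ 1 - 1 / (p : ℝ) := by
    rw [sub_nonneg, div_le_one hp0]
    exact hp1
  positivity

lemma gG_mul (G F : ℤ[X]) (a : Fin k → ℕ) (y z : ℕ) (hyz : y ≤ z) :
    gG G F a z = gG G F a y * ∏ p ∈ (Ioc y z).filter Nat.Prime,
      ((1 - (rG G F a p : ℝ) / p) / ((1 - (rho G 0 p : ℝ) / p) * (1 - 1 / (p : ℝ)) ^ k)) := by
  have hu : pz z = pz y ∪ (Ioc y z).filter Nat.Prime := by
    ext p
    rw [mem_union, mem_filter, mem_Ioc, mem_pz, mem_pz]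
    constructor
    · rintro ⟨h1, h2⟩
      rcases Nat.lt_or_ge y p with h3 | h3
      · right; exact ⟨⟨h3, h1⟩, h2⟩
      · left; exact ⟨h3, h2⟩
    · rintro (⟨h1, h2⟩ | ⟨⟨h1, h2⟩, h3⟩)
      · exact ⟨by omega, h2⟩
      · exact ⟨h2, h3⟩
  have hdis : Disjoint (pz y) ((Ioc y z).filter Nat.Prime) := by
    rw [disjoint_left]
    intro p hp hq
    rw [mem_filter, mem_Ioc] at hq
    rw [mem_pz] at hp
    omega
  rw [gG_eq_prod, gG_eq_prod, hu, prod_union hdis]

open Classical in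
/-- the closeness for one tuple -/
lemma closeG_one (G F : ℤ[X]) (a : Fin k → ℕ) (A y z : ℕ) (hd : 1 ≤ F.natDegree) (hl0 : F.leadingCoeff ≠ 0) (hG : G ≠ 0)
    (hinj : Function.Injective a) (ha : ∀ i, a i ∈ Icc 1 A) (hyz : y ≤ z) (hl : F.leadingCoeff.natAbs ≤ y)
    (hlG : G.leadingCoeff.natAbs ≤ y) (hk : 4 * (G.natDegree + k * F.natDegree) ≤ y) (hy1 : 1 ≤ y) (κ δ θ ε : ℝ) (hθ : θ ≤ 1)
    (hclose : ∀ i, |hh F (a i : ℤ) z - hh F (a i : ℤ) y| ≤ 4 * κ * hh F (a i : ℤ) y)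
    (hcr : ∀ i, ∑ p ∈ ((Ioc y z).filter Nat.Prime).filter (fun p => cr G F (a i : ℤ) p), 1 / (p : ℝ) ≤ ε)
    (hδ : ((G.natDegree + k * F.natDegree : ℕ) : ℝ) ^ 2 * (1 / y) +
      2 * ((G.natDegree + k * F.natDegree : ℕ) : ℝ) / y * (k * k * (2 * Real.log A)) +
      k * (2 * ((G.natDegree + k * F.natDegree : ℕ) : ℝ) * ε) ≤ δ)
    (hκδ : 2 * (δ + k * (4 * κ)) ≤ θ) (hκ : 0 ≤ κ) (hε : 0 ≤ ε) : |gG G F a z - gG G F a y| ≤ θ * gG G F a y := by
  have hyr : (0 : ℝ) < y := by exact_mod_cast hy1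
  have hDnn : (0 : ℝ) ≤ ((G.natDegree + k * F.natDegree : ℕ) : ℝ) := Nat.cast_nonneg _
  by_cases hz0 : ∃ i, hh F (a i : ℤ) y = 0
  · obtain ⟨i, hi⟩ := hz0
    have h1 : ∏ p ∈ pz y, (1 - (rho F (a i : ℤ) p : ℝ) / p) = 0 := by
      unfold hh at hi
      rcases mul_eq_zero.1 hi with h | h
      · exact absurd h (inv_ne_zero (Vz_pos y).ne')
      · exact h
    rw [prod_eq_zero_iff] at h1
    obtain ⟨p, hp, hp1⟩ := h1
    have hp' := mem_pz.1 hp
    have hp0 : (0 : ℝ) < p := by exact_mod_cast hp'.2.pos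
    have h2 : (rho F (a i : ℤ) p : ℝ) = p := by
      rw [sub_eq_zero, eq_comm, div_eq_one_iff_eq hp0.ne'] at hp1
      exact hp1
    have h3 : (p : ℝ) ≤ rG G F a p := by
      rw [← h2]
      exact_mod_cast (le_rk F a hp'.2 i).trans (rk_le_rG G F a hp'.2)
    have h4 : (rG G F a p : ℝ) = p := le_antisymm (by exact_mod_cast rG_le G F a p) h3
    have h5 : gG G F a y = 0 := by
      unfold gG
      rw [prod_eq_zero hp (by rw [h4, div_self hp0.ne', sub_self]), zero_div]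
    rw [gG_mul G F a y z hyz, h5]
    simp
  · push Not at hz0
    set P := (Ioc y z).filter Nat.Prime with hP
    have hPm : ∀ p ∈ P, y < p ∧ p.Prime := by
      intro p hp
      rw [hP, mem_filter, mem_Ioc] at hp
      exact ⟨hp.1.1, hp.2⟩
    have huq : ∀ p ∈ P, (∀ i, 1 - (rho F (a i : ℤ) p : ℝ) / p ≠ 0) ∧
        |uG G F a p - 1| ≤ ((G.natDegree + k * F.natDegree : ℕ) : ℝ) ^ 2 * (1 / (p : ℝ) ^ 2) +
          ((if ov a p then 2 * ((G.natDegree + k * F.natDegree : ℕ) : ℝ) / p else 0) +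
          ∑ i, (if cr G F (a i : ℤ) p then 2 * ((G.natDegree + k * F.natDegree : ℕ) : ℝ) / p else 0)) := by
      intro p hp
      obtain ⟨h1, h2⟩ := hPm p hp
      exact uG_close G F a h2 hd (by omega) hl0 hG (by omega) (by omega)
    obtain ⟨R, hR⟩ : ∃ R : Fin k → ℝ, R = fun i => ∏ p ∈ P, (1 - xp F (a i : ℤ) p) := ⟨_, rfl⟩
    have hfac : ∏ p ∈ P, ((1 - (rG G F a p : ℝ) / p) / ((1 - (rho G 0 p : ℝ) / p) * (1 - 1 / (p : ℝ)) ^ k)) =
        (∏ p ∈ P, uG G F a p) * ∏ i, R i := by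
      rw [hR]
      simp only
      rw [Finset.prod_comm, ← prod_mul_distrib]
      apply prod_congr rfl
      intro p hp
      obtain ⟨h1, h2⟩ := hPm p hp
      have hp2 : (2 : ℝ) ≤ p := by exact_mod_cast h2.two_le
      have h3 : ∀ i : Fin k, 1 - xp F (a i : ℤ) p = (1 - (rho F (a i : ℤ) p : ℝ) / p) / (1 - 1 / (p : ℝ)) := by
        intro i
        unfold xp
        have h3 : (p : ℝ) - 1 ≠ 0 := by linarith
        have h4 : (p : ℝ) ≠ 0 := by linarith
        have h5 : 1 - 1 / (p : ℝ) = ((p : ℝ) - 1) / p := by field_simp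
        rw [h5]
        field_simp
        ring
      simp only [h3]
      rw [prod_div_distrib, prod_const, card_univ, Fintype.card_fin]
      unfold uG
      have h4 : ∏ i, (1 - (rho F (a i : ℤ) p : ℝ) / p) ≠ 0 := prod_ne_zero_iff.2 fun i _ => (huq p hp).1 i
      rw [div_mul_div_comm, mul_assoc (1 - (rho G 0 p : ℝ) / p), mul_comm (∏ i, (1 - (rho F (a i : ℤ) p : ℝ) / p)) ((1 - 1 / (p : ℝ)) ^ k),
        ← mul_assoc (1 - (rho G 0 p : ℝ) / p), mul_div_mul_right _ _ h4]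
    -- the two products
    have hRi : ∀ i, |R i - 1| ≤ 4 * κ := by
      intro i
      have h1 := hclose i
      rw [hh_mul F (a i : ℤ) y z hyz, ← hP] at h1
      have h0 : 0 < hh F (a i : ℤ) y := lt_of_le_of_ne (hh_nonneg F _ y hy1) (Ne.symm (hz0 i))
      have h2 : hh F (a i : ℤ) y * ∏ p ∈ P, (1 - xp F (a i : ℤ) p) - hh F (a i : ℤ) y = (R i - 1) * hh F (a i : ℤ) y := by
        rw [hR]
        ring
      rw [h2, abs_mul, abs_of_pos h0] at h1
      exact le_of_mul_le_mul_right h1 h0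
    have hU : |∏ p ∈ P, uG G F a p - 1| ≤ Real.exp δ - 1 := by
      have h1 := Finset.norm_prod_one_add_sub_one_le P (fun p => uG G F a p - 1)
      simp only [add_sub_cancel, Real.norm_eq_abs] at h1
      refine h1.trans ?_
      have h2 : ∑ p ∈ P, |uG G F a p - 1| ≤ δ := by
        refine le_trans ?_ hδ
        refine (sum_le_sum fun p hp => (huq p hp).2).trans ?_
        rw [sum_add_distrib, ← mul_sum, sum_add_distrib, add_assoc]
        apply add_le_add
        · exact mul_le_mul_of_nonneg_left (sum_inv_sq_le y z hy1) (by positivity)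
        apply add_le_add
        · rw [← sum_filter]
          calc ∑ p ∈ P.filter (fun p => ov a p), 2 * ((G.natDegree + k * F.natDegree : ℕ) : ℝ) / p ≤
              ∑ _p ∈ P.filter (fun p => ov a p), 2 * ((G.natDegree + k * F.natDegree : ℕ) : ℝ) / y := by
                apply sum_le_sum
                intro p hp
                rw [mem_filter] at hp
                have h3 : (y : ℝ) ≤ p := by exact_mod_cast (hPm p hp.1).1.le
                gcongr
            _ = 2 * ((G.natDegree + k * F.natDegree : ℕ) : ℝ) / y * (#(P.filter (fun p => ov a p)) : ℝ) := by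
                rw [sum_const, nsmul_eq_mul]
                ring
            _ ≤ _ := by
                apply mul_le_mul_of_nonneg_left _ (by positivity)
                exact card_ov a A hinj ha P (fun p hp => (hPm p hp).2)
        · rw [Finset.sum_comm]
          calc ∑ i, ∑ p ∈ P, (if cr G F (a i : ℤ) p then 2 * ((G.natDegree + k * F.natDegree : ℕ) : ℝ) / p else 0)
              ≤ ∑ _i : Fin k, 2 * ((G.natDegree + k * F.natDegree : ℕ) : ℝ) * ε := by
                apply sum_le_sum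
                intro i _
                rw [← sum_filter]
                have h3 := hcr i
                calc ∑ p ∈ P.filter (fun p => cr G F (a i : ℤ) p), 2 * ((G.natDegree + k * F.natDegree : ℕ) : ℝ) / p
                    = 2 * ((G.natDegree + k * F.natDegree : ℕ) : ℝ) * ∑ p ∈ P.filter (fun p => cr G F (a i : ℤ) p), 1 / (p : ℝ) := by
                      rw [mul_sum]
                      apply sum_congr rfl
                      intro p _
                      ring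
                  _ ≤ _ := mul_le_mul_of_nonneg_left h3 (by positivity)
            _ = _ := by
                rw [sum_const, card_univ, Fintype.card_fin, nsmul_eq_mul]
      have h3 := Real.exp_le_exp.2 h2
      linarith
    have hRR : |∏ i, R i - 1| ≤ Real.exp (k * (4 * κ)) - 1 := by
      have h1 := Finset.norm_prod_one_add_sub_one_le (univ : Finset (Fin k)) (fun i => R i - 1)
      simp only [add_sub_cancel, Real.norm_eq_abs] at h1
      refine h1.trans ?_
      have h2 : ∑ i, |R i - 1| ≤ k * (4 * κ) := by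
        refine (sum_le_sum fun i _ => hRi i).trans ?_
        simp
      have h3 := Real.exp_le_exp.2 h2
      linarith
    obtain ⟨U, hUd⟩ : ∃ U : ℝ, U = ∏ p ∈ P, uG G F a p := ⟨_, rfl⟩
    obtain ⟨V, hVd⟩ : ∃ V : ℝ, V = ∏ i, R i := ⟨_, rfl⟩
    rw [← hUd] at hU hfac
    rw [← hVd] at hRR hfac
    have hδ0 : 0 ≤ δ := by
      refine le_trans ?_ hδ
      have : 0 ≤ Real.log A := Real.log_natCast_nonneg A
      positivity
    have hk4 : 0 ≤ (k : ℝ) * (4 * κ) := by positivity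
    have hfin : |U * V - 1| ≤ θ := by
      have h1 : U * V - 1 = (U - 1) * (V - 1) + (U - 1) + (V - 1) := by ring
      have h2 : |U * V - 1| ≤ |U - 1| * |V - 1| + |U - 1| + |V - 1| := by
        rw [h1, ← abs_mul]
        refine (abs_add_le _ _).trans ?_
        have := abs_add_le ((U - 1) * (V - 1)) (U - 1)
        linarith
      have hv0 : 0 ≤ |V - 1| := abs_nonneg _
      have hE0 : 0 ≤ Real.exp δ - 1 := by
        have := Real.add_one_le_exp δ
        linarith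
      have h3 : |U - 1| * |V - 1| ≤ (Real.exp δ - 1) * (Real.exp (k * (4 * κ)) - 1) := mul_le_mul hU hRR hv0 hE0
      have h4 : |U * V - 1| ≤ Real.exp (δ + k * (4 * κ)) - 1 := by
        rw [Real.exp_add]
        linarith
      have h5 := Real.abs_exp_sub_one_le (x := δ + k * (4 * κ)) (by
        rw [abs_of_nonneg (by linarith)]
        linarith)
      rw [abs_of_nonneg (by
        have := Real.add_one_le_exp (δ + k * (4 * κ))
        linarith), abs_of_nonneg (by linarith)] at h5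
      linarith
    rw [gG_mul G F a y z hyz, ← hP, hfac]
    have h6 : gG G F a y * (U * V) - gG G F a y = (U * V - 1) * gG G F a y := by ring
    rw [h6, abs_mul, abs_of_nonneg (gG_nonneg G F a y)]
    exact mul_le_mul_of_nonneg_right hfin (gG_nonneg G F a y)

/-! ### the shift -/

lemma rho_Fb (F : ℤ[X]) (b t : ℤ) (p : ℕ) : rho (Fb F b) t p = rho F (b + t) p := by
  unfold rho Fb
  congr 1
  apply filter_congr
  intro x _
  rw [Polynomial.eval_add, Polynomial.eval_C, add_assoc]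

lemma hh_Fb (F : ℤ[X]) (b t : ℤ) (z : ℕ) : hh (Fb F b) t z = hh F (b + t) z := by
  unfold hh
  simp only [rho_Fb]

lemma cr_Fb (G F : ℤ[X]) (b t : ℤ) (p : ℕ) : cr G (Fb F b) t p ↔ cr G F (b + t) p := by
  unfold cr Fb
  simp only [Polynomial.eval_add, Polynomial.eval_C, add_assoc]

lemma natDegree_Fb (F : ℤ[X]) (b : ℤ) : (Fb F b).natDegree = F.natDegree := Polynomial.natDegree_add_C

lemma leadingCoeff_Fb (F : ℤ[X]) (b : ℤ) (hd : 1 ≤ F.natDegree) : (Fb F b).leadingCoeff = F.leadingCoeff := by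
  unfold Polynomial.leadingCoeff
  rw [natDegree_Fb]
  unfold Fb
  rw [Polynomial.coeff_add, Polynomial.coeff_C, if_neg (by omega), add_zero]

/-! ### the exceptional set -/

lemma card_class (x p : ℕ) (hp : 0 < p) (hpx : p ≤ x) (c : ℤ) :
    (#((Icc (-(x : ℤ)) x).filter (fun t : ℤ => (p : ℤ) ∣ c + t)) : ℝ) ≤ 4 * x / p := by
  have hpz : (0 : ℤ) < p := by exact_mod_cast hp
  have hpr : (0 : ℝ) < p := by exact_mod_cast hp
  have h1 : #((Icc (-(x : ℤ)) x).filter (fun t : ℤ => (p : ℤ) ∣ c + t)) ≤ #(Icc ((c - x) / p) ((c + x) / p)) := by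
    apply card_le_card_of_injOn (fun t : ℤ => (c + t) / p)
    · intro t ht
      simp only [coe_filter, mem_Icc, Set.mem_ofPred_eq] at ht
      simp only [coe_Icc, Set.mem_Icc]
      exact ⟨Int.ediv_le_ediv hpz (by omega), Int.ediv_le_ediv hpz (by omega)⟩
    · intro t ht t' ht' heq
      simp only [coe_filter, mem_Icc, Set.mem_ofPred_eq] at ht ht'
      have e1 := Int.ediv_mul_cancel ht.2
      have e2 := Int.ediv_mul_cancel ht'.2
      simp only at heq
      rw [heq] at e1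
      omega
  have h2 : (#(Icc ((c - x) / p) ((c + x) / p)) : ℝ) ≤ 2 * x / p + 2 := by
    rw [Int.card_Icc]
    have h3 : (((c + x) / p : ℤ) : ℝ) ≤ ((c : ℝ) + x) / p := by
      rw [le_div_iff₀ hpr]
      have := Int.ediv_mul_le (c + x) hpz.ne'
      exact_mod_cast this
    have h4 : ((c : ℝ) - x) / p - 1 ≤ (((c - x) / p : ℤ) : ℝ) := by
      have h5 := Int.lt_ediv_add_one_mul_self (c - x) hpz
      have h6 : ((c : ℝ) - x) < ((((c - x) / p : ℤ) : ℝ) + 1) * p := by exact_mod_cast h5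
      have h7 : ((c : ℝ) - x) / p < (((c - x) / p : ℤ) : ℝ) + 1 := by
        rw [div_lt_iff₀ hpr]
        exact h6
      linarith
    have h8 : ((((c + x) / p + 1 - (c - x) / p).toNat : ℕ) : ℝ) ≤ max ((((c + x) / p : ℤ) : ℝ) + 1 - (((c - x) / p : ℤ) : ℝ)) 0 := by
      have h9 : ((((c + x) / p + 1 - (c - x) / p).toNat : ℕ) : ℤ) = max ((c + x) / p + 1 - (c - x) / p) 0 := Int.toNat_eq_max _
      have h10 : ((((c + x) / p + 1 - (c - x) / p).toNat : ℕ) : ℝ) = ((max ((c + x) / p + 1 - (c - x) / p) 0 : ℤ) : ℝ) := by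
        exact_mod_cast h9
      rw [h10]
      push_cast
      exact le_rfl
    refine h8.trans (max_le ?_ (by positivity))
    have h11 : ((c : ℝ) + x) / p - ((c : ℝ) - x) / p = 2 * x / p := by ring
    linarith
  have h3 : (2 : ℝ) ≤ 2 * x / p := by
    rw [le_div_iff₀ hpr]
    have : (p : ℝ) ≤ x := by exact_mod_cast hpx
    linarith
  have h4 : (4 : ℝ) * x / p = 2 * x / p + 2 * x / p := by ring
  have h5 : (#((Icc (-(x : ℤ)) x).filter (fun t : ℤ => (p : ℤ) ∣ c + t)) : ℝ) ≤ (#(Icc ((c - x) / p) ((c + x) / p)) : ℝ) := by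
    exact_mod_cast h1
  linarith

open Classical in
lemma card_cr (G F : ℤ[X]) (x : ℕ) {p : ℕ} (hp : p.Prime) (hpx : p ≤ x) (hl : G.leadingCoeff.natAbs < p) (hG : G ≠ 0) :
    (#((Icc (-(x : ℤ)) x).filter (fun t : ℤ => cr G F t p)) : ℝ) ≤ G.natDegree * (4 * x / p) := by
  have h1 : (Icc (-(x : ℤ)) x).filter (fun t : ℤ => cr G F t p) ⊆
      ((range p).filter (fun a : ℕ => (p : ℤ) ∣ G.eval (a : ℤ) + 0)).biUnion
        (fun r => (Icc (-(x : ℤ)) x).filter (fun t : ℤ => (p : ℤ) ∣ F.eval (r : ℤ) + t)) := by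
    intro t ht
    rw [mem_filter] at ht
    obtain ⟨ht1, r, hr, hr1, hr2⟩ := ht
    rw [mem_biUnion]
    exact ⟨r, mem_filter.2 ⟨hr, hr1⟩, mem_filter.2 ⟨ht1, hr2⟩⟩
  have h2 : (#((Icc (-(x : ℤ)) x).filter (fun t : ℤ => cr G F t p)) : ℝ) ≤
      ∑ r ∈ (range p).filter (fun a : ℕ => (p : ℤ) ∣ G.eval (a : ℤ) + 0),
        (#((Icc (-(x : ℤ)) x).filter (fun t : ℤ => (p : ℤ) ∣ F.eval (r : ℤ) + t)) : ℝ) := by
    exact_mod_cast (card_le_card h1).trans card_biUnion_le
  refine h2.trans ((sum_le_sum fun r _ => card_class x p hp.pos hpx _).trans ?_)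
  rw [sum_const, nsmul_eq_mul]
  have h3 : (#((range p).filter (fun a : ℕ => (p : ℤ) ∣ G.eval (a : ℤ) + 0)) : ℝ) ≤ G.natDegree := by
    exact_mod_cast rho_G_le G hp hl hG
  exact mul_le_mul_of_nonneg_right h3 (by positivity)

open Classical in
/-- few shifts have many common roots with `G` -/
lemma exc_cr (G F : ℤ[X]) (hG : G ≠ 0) (x y z : ℕ) (hy1 : 1 ≤ y) (hzx : z ≤ x) (hl : G.leadingCoeff.natAbs ≤ y) (ε : ℝ) (hε : 0 < ε) :
    (#((Icc (-(x : ℤ)) x).filter (fun t : ℤ =>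
      ε < ∑ p ∈ ((Ioc y z).filter Nat.Prime).filter (fun p => cr G F t p), 1 / (p : ℝ))) : ℝ) ≤
      4 * G.natDegree * x / (y * ε) := by
  have hyr : (0 : ℝ) < y := by exact_mod_cast hy1
  set B := (Icc (-(x : ℤ)) x).filter (fun t : ℤ =>
      ε < ∑ p ∈ ((Ioc y z).filter Nat.Prime).filter (fun p => cr G F t p), 1 / (p : ℝ)) with hB
  have h1 : (#B : ℝ) * ε ≤ ∑ t ∈ Icc (-(x : ℤ)) x, ∑ p ∈ ((Ioc y z).filter Nat.Prime).filter (fun p => cr G F t p), 1 / (p : ℝ) := by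
    calc (#B : ℝ) * ε = ∑ _t ∈ B, ε := by rw [sum_const, nsmul_eq_mul]
      _ ≤ ∑ t ∈ B, ∑ p ∈ ((Ioc y z).filter Nat.Prime).filter (fun p => cr G F t p), 1 / (p : ℝ) := by
          apply sum_le_sum
          intro t ht
          rw [hB, mem_filter] at ht
          exact ht.2.le
      _ ≤ _ := by
          apply sum_le_sum_of_subset_of_nonneg (filter_subset _ _)
          intro t _ _
          exact sum_nonneg fun p _ => by positivity
  have h2 : ∑ t ∈ Icc (-(x : ℤ)) x, ∑ p ∈ ((Ioc y z).filter Nat.Prime).filter (fun p => cr G F t p), 1 / (p : ℝ) =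
      ∑ p ∈ (Ioc y z).filter Nat.Prime, (#((Icc (-(x : ℤ)) x).filter (fun t : ℤ => cr G F t p)) : ℝ) * (1 / (p : ℝ)) := by
    simp_rw [sum_filter (s := (Ioc y z).filter Nat.Prime)]
    rw [sum_comm]
    apply sum_congr rfl
    intro p _
    rw [← sum_filter, sum_const, nsmul_eq_mul]
  have h3 : ∑ p ∈ (Ioc y z).filter Nat.Prime, (#((Icc (-(x : ℤ)) x).filter (fun t : ℤ => cr G F t p)) : ℝ) * (1 / (p : ℝ)) ≤
      ∑ p ∈ (Ioc y z).filter Nat.Prime, (4 * G.natDegree * x) * (1 / (p : ℝ) ^ 2) := by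
    apply sum_le_sum
    intro p hp
    rw [mem_filter, mem_Ioc] at hp
    have h4 := card_cr G F x hp.2 (by omega) (by omega) hG
    calc (#((Icc (-(x : ℤ)) x).filter (fun t : ℤ => cr G F t p)) : ℝ) * (1 / (p : ℝ)) ≤
        (G.natDegree * (4 * x / p)) * (1 / (p : ℝ)) := mul_le_mul_of_nonneg_right h4 (by positivity)
      _ = _ := by ring
  rw [← mul_sum] at h3
  have h4 : (4 * G.natDegree * x) * ∑ p ∈ (Ioc y z).filter Nat.Prime, (1 / (p : ℝ) ^ 2) ≤ (4 * G.natDegree * x) * (1 / (y : ℝ)) :=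
    mul_le_mul_of_nonneg_left (sum_inv_sq_le y z hy1) (by positivity)
  rw [le_div_iff₀ (by positivity)]
  rw [h2] at h1
  have h5 : (#B : ℝ) * ε ≤ (4 * G.natDegree * x) * (1 / (y : ℝ)) := by linarith
  calc (#B : ℝ) * (y * ε) = ((#B : ℝ) * ε) * y := by ring
    _ ≤ ((4 * G.natDegree * x) * (1 / (y : ℝ))) * y := mul_le_mul_of_nonneg_right h5 hyr.le
    _ = 4 * G.natDegree * x := by field_simp

theorem clg (G F : ℤ[X]) (k : ℕ) (hd : 1 ≤ F.natDegree) (hG : G ≠ 0) : S_CLG G F k := by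
  classical
  intro U θ0 hθ0
  obtain ⟨θ, hθ, hθ1, hθθ⟩ : ∃ θ : ℝ, 0 < θ ∧ θ ≤ 1 ∧ θ ≤ θ0 :=
    ⟨min θ0 1, lt_min hθ0 one_pos, min_le_right _ _, min_le_left _ _⟩
  have hF0 : F ≠ 0 := by
    intro h
    rw [h, Polynomial.natDegree_zero] at hd
    omega
  have hl0 : F.leadingCoeff ≠ 0 := Polynomial.leadingCoeff_ne_zero.2 hF0
  obtain ⟨E1, hE1⟩ := tail_all F hd 1 (U + 1)
  refine ⟨E1 + U + 4, fun E hE => ?_⟩
  obtain ⟨X1, hX1⟩ := hE1 E (by omega)
  obtain ⟨D, hD⟩ : ∃ D : ℝ, D = ((G.natDegree + k * F.natDegree : ℕ) : ℝ) := ⟨_, rfl⟩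
  have hD0 : 0 ≤ D := by rw [hD]; exact Nat.cast_nonneg _
  obtain ⟨Cb, hCb⟩ : ∃ Cb : ℝ, Cb = 16 + 16 * (F.natDegree : ℝ) ^ 2 + 8 * F.natDegree + 2 * F.leadingCoeff.natAbs +
    2 * G.leadingCoeff.natAbs + 16 * G.natDegree + 8 * D +
    2 * (2 * (D ^ 2 * 2 + 2 * D * 2 * (k * k * 2) + 2 * D * k) + 2 * (k * 4)) / θ := ⟨_, rfl⟩
  obtain ⟨X2, hX2⟩ := eventually_atTop.1 (Pool.Agent.TH204.WR.evt_log_ge Cb)
  refine ⟨X1 + X2 + 1, fun A hA => ?_⟩
  have hL := hX2 A (by omega)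
  obtain ⟨L, hLd⟩ : ∃ L : ℝ, L = Real.log A := ⟨_, rfl⟩
  obtain ⟨Bt, hBt1, hBt2, hBt3⟩ := hX1 A (by omega)
  rw [← hLd] at hBt2 hBt3 hL ⊢
  obtain ⟨y, hy⟩ : ∃ y : ℕ, y = ⌊L ^ E⌋₊ := ⟨_, rfl⟩
  rw [← hy] at hBt3 ⊢
  have hlc : (0 : ℝ) ≤ (F.leadingCoeff.natAbs : ℝ) := Nat.cast_nonneg _
  have hlcG : (0 : ℝ) ≤ (G.leadingCoeff.natAbs : ℝ) := Nat.cast_nonneg _
  have hgg : (0 : ℝ) ≤ (G.natDegree : ℝ) := Nat.cast_nonneg _
  have hdd : (0 : ℝ) ≤ (F.natDegree : ℝ) := Nat.cast_nonneg _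
  have hCθ : 0 ≤ 2 * (2 * (D ^ 2 * 2 + 2 * D * 2 * (k * k * 2) + 2 * D * k) + 2 * (k * 4)) / θ := by positivity
  have hdsq : 0 ≤ (F.natDegree : ℝ) ^ 2 := sq_nonneg _
  have hL16 : 16 ≤ L := by linarith
  have hL0 : 0 < L := by linarith
  have hL1 : 1 ≤ L := by linarith
  have hyU : L ^ (U + 1) * (L ^ 3) ≤ L ^ E := by
    rw [← pow_add]
    exact pow_le_pow_right₀ hL1 (by omega)
  have hLU1 : 1 ≤ L ^ (U + 1) := one_le_pow₀ hL1
  have hy3 : L ^ 3 ≤ L ^ E := pow_le_pow_right₀ hL1 (by omega)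
  have hLLL : L * L ≤ L ^ 3 := by nlinarith [mul_pos hL0 hL0]
  have hyge0 : L ^ E < y + 1 := by rw [hy]; exact Nat.lt_floor_add_one _
  have hyge : L * L / 2 ≤ y := by
    nlinarith
  have hyL : L ≤ y := by nlinarith
  have hyr : (0 : ℝ) < y := by linarith
  have hy1 : 1 ≤ y := by
    have : (1 : ℝ) ≤ y := by linarith
    exact_mod_cast this
  have hA1 : 1 ≤ A := by omega
  have hAr : (1 : ℝ) ≤ A := by exact_mod_cast hA1
  -- the largest cut
  obtain ⟨Z, hZ⟩ : ∃ Z : ℕ, Z = Nat.findGreatest (fun z => z ^ 3 ≤ A) A := ⟨_, rfl⟩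
  have hZ1 : Z ≤ A := by rw [hZ]; exact Nat.findGreatest_le _
  have hZ2 : ∀ z : ℕ, z ^ 3 ≤ A → z ≤ Z := by
    intro z hz
    rw [hZ]
    exact Nat.le_findGreatest (P := fun z => z ^ 3 ≤ A) (le_trans (Nat.le_self_pow (by norm_num) z) hz) hz
  obtain ⟨Bc, hBc⟩ : ∃ Bc : Finset ℤ, Bc = (Icc (-(A : ℤ)) A).filter (fun t : ℤ =>
      1 / L < ∑ p ∈ ((Ioc y Z).filter Nat.Prime).filter (fun p => cr G F t p), 1 / (p : ℝ)) := ⟨_, rfl⟩
  have hlGy : G.leadingCoeff.natAbs ≤ y := by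
    have h3 : (G.leadingCoeff.natAbs : ℝ) ≤ y := by nlinarith
    exact_mod_cast h3
  have hBcc : (#Bc : ℝ) ≤ A / (2 * L ^ U) := by
    have h1 := exc_cr G F hG A y Z hy1 hZ1 hlGy (1 / L) (by positivity)
    rw [← hBc] at h1
    refine h1.trans ?_
    rw [div_le_div_iff₀ (by positivity) (by positivity)]
    -- 4 g A * (2 L^U) ≤ A * (y * (1/L))
    have h2 : 8 * G.natDegree * L ^ (U + 1) ≤ y := by
      have h3 : L ^ (U + 1) * L ^ 3 < y + 1 := lt_of_le_of_lt hyU hyge0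
      have h4 : L ^ (U + 1) * (8 * G.natDegree + 1) ≤ L ^ (U + 1) * L ^ 3 := by
        apply mul_le_mul_of_nonneg_left _ (by positivity)
        nlinarith
      nlinarith
    have h5 : L ^ (U + 1) = L ^ U * L := pow_succ _ _
    calc 4 * (G.natDegree : ℝ) * A * (2 * L ^ U) = A * ((8 * G.natDegree * L ^ (U + 1)) * (1 / L)) := by
          rw [h5]
          field_simp
          ring
      _ ≤ A * (y * (1 / L)) := by
          apply mul_le_mul_of_nonneg_left _ (by positivity)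
          exact mul_le_mul_of_nonneg_right h2 (by positivity)
  have hBtc : (#Bt : ℝ) ≤ A / (2 * L ^ U) := by
    refine hBt2.trans ?_
    apply div_le_div_of_nonneg_left (by positivity) (by positivity)
    rw [pow_succ]
    nlinarith [pow_pos hL0 U]
  refine ⟨Bt ∪ Bc, ?_, ?_⟩
  · have h1 : (#(Bt ∪ Bc) : ℝ) ≤ #Bt + #Bc := by exact_mod_cast card_union_le Bt Bc
    have h2 : (A : ℝ) / (2 * L ^ U) + A / (2 * L ^ U) = A / L ^ U := by
      field_simp
      ring
    linarith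
  · intro b a hinj haA haI haB z hyz hz3
    have hyz' : y ≤ z := hyz
    have hκ0 : 0 ≤ 1 / L := by positivity
    have hκ : 2 * (1 / L) ≤ 1 := by
      rw [mul_one_div, div_le_one hL0]
      linarith
    have hzZ : z ≤ Z := hZ2 z hz3
    have hdF : (Fb F b).natDegree = F.natDegree := natDegree_Fb F b
    have hlF : (Fb F b).leadingCoeff = F.leadingCoeff := leadingCoeff_Fb F b hd
    have hcl : ∀ i, |hh (Fb F b) (a i : ℤ) z - hh (Fb F b) (a i : ℤ) y| ≤ 4 * (1 / L) * hh (Fb F b) (a i : ℤ) y := by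
      intro i
      have hnB : b + ((a i : ℕ) : ℤ) ∉ Bt := fun h => haB i (mem_union_left _ h)
      have h1 := hBt3 (b + (a i : ℤ)) (haI i) hnB z hyz' hz3
      rw [pow_one] at h1
      rw [hh_Fb, hh_Fb]
      refine hh_close F (b + (a i : ℤ)) y z hd ?_ hl0 hyz' (1 / L) ?_ ?_ hκ h1
      · have h3 : (F.leadingCoeff.natAbs : ℝ) ≤ y := by nlinarith
        exact_mod_cast h3
      · rw [one_div, inv_mul_eq_div, le_div_iff₀ hL0]
        have h3 : 16 * (F.natDegree : ℝ) ^ 2 ≤ L := by nlinarith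
        have h4 : (16 * (F.natDegree : ℝ) ^ 2) * L ≤ L * L := mul_le_mul_of_nonneg_right h3 hL0.le
        linarith
      · have h3 : ((4 * F.natDegree : ℕ) : ℝ) ≤ y := by
          push_cast
          nlinarith
        exact_mod_cast h3
    have hcrr : ∀ i, ∑ p ∈ ((Ioc y z).filter Nat.Prime).filter (fun p => cr G (Fb F b) (a i : ℤ) p), 1 / (p : ℝ) ≤ 1 / L := by
      intro i
      have hnB : b + ((a i : ℕ) : ℤ) ∉ Bc := fun h => haB i (mem_union_right _ h)
      have h1 : ∑ p ∈ ((Ioc y Z).filter Nat.Prime).filter (fun p => cr G F (b + (a i : ℤ)) p), 1 / (p : ℝ) ≤ 1 / L := by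
        by_contra hcon
        push Not at hcon
        apply hnB
        rw [hBc, mem_filter]
        exact ⟨haI i, hcon⟩
      refine le_trans ?_ h1
      apply sum_le_sum_of_subset_of_nonneg
      · intro p hp
        rw [mem_filter, mem_filter, mem_Ioc, cr_Fb] at hp
        rw [mem_filter, mem_filter, mem_Ioc]
        exact ⟨⟨⟨hp.1.1.1, hp.1.1.2.trans hzZ⟩, hp.1.2⟩, hp.2⟩
      · intro p _ _
        positivity
    have hgk := gG_nonneg G (Fb F b) a y
    refine le_trans (closeG_one G (Fb F b) a A y z (by rw [hdF]; exact hd) (by rw [hlF]; exact hl0) hG hinj haA hyz' ?_ hlGy ?_ hy1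
      (1 / L) ((D ^ 2 * 2 + 2 * D * 2 * (k * k * 2) + 2 * D * k) / L) θ (1 / L)
      hθ1 hcl hcrr ?_ ?_ hκ0 hκ0) (mul_le_mul_of_nonneg_right hθθ hgk)
    · rw [hlF]
      have h3 : (F.leadingCoeff.natAbs : ℝ) ≤ y := by nlinarith
      exact_mod_cast h3
    · rw [hdF]
      have h3 : ((4 * (G.natDegree + k * F.natDegree) : ℕ) : ℝ) ≤ y := by
        have : ((4 * (G.natDegree + k * F.natDegree) : ℕ) : ℝ) = 4 * D := by
          rw [hD]
          push_cast
          ring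
        rw [this]
        nlinarith
      exact_mod_cast h3
    · rw [hdF, ← hD, ← hLd]
      have h1 : 1 / (y : ℝ) ≤ 2 / (L * L) := by
        rw [div_le_div_iff₀ hyr (by positivity)]
        linarith
      have h2 : 2 / (L * L) ≤ 2 / L := by
        apply div_le_div_of_nonneg_left (by norm_num) hL0
        nlinarith
      calc D ^ 2 * (1 / (y : ℝ)) + 2 * D / y * (k * k * (2 * L)) + k * (2 * D * (1 / L))
          = D ^ 2 * (1 / (y : ℝ)) + 2 * D * (k * k * (2 * L)) * (1 / (y : ℝ)) + k * (2 * D * (1 / L)) := by ring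
        _ ≤ D ^ 2 * (2 / L) + 2 * D * (k * k * (2 * L)) * (2 / (L * L)) + k * (2 * D * (1 / L)) := by
            apply add_le_add _ le_rfl
            apply add_le_add
            · exact mul_le_mul_of_nonneg_left (h1.trans h2) (by positivity)
            · exact mul_le_mul_of_nonneg_left h1 (by positivity)
        _ = (D ^ 2 * 2 + 2 * D * 2 * (k * k * 2) + 2 * D * k) / L := by
            field_simp
    · have h1 : 2 * (2 * (D ^ 2 * 2 + 2 * D * 2 * (k * k * 2) + 2 * D * k) + 2 * (k * 4)) / θ ≤ L := by linarith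
      rw [div_le_iff₀ hθ] at h1
      have h2 : 2 * ((D ^ 2 * 2 + 2 * D * 2 * (k * k * 2) + 2 * D * k) / L + k * (4 * (1 / L))) =
          (2 * (D ^ 2 * 2 + 2 * D * 2 * (k * k * 2) + 2 * D * k) + 2 * (k * 4)) / L := by
        field_simp
      rw [h2, div_le_iff₀ hL0]
      have h3 : 0 ≤ 2 * (D ^ 2 * 2 + 2 * D * 2 * (k * k * 2) + 2 * D * k) + 2 * (k * 4 : ℝ) := by positivity
      nlinarith

end Run7.h760.PA
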